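import Pool.Agent.Helper99.GL.FSpec

/-!
Swarm `GL`, part F06: algebra of the chart at infinity.
-/

set_option autoImplicit false

open Metric Set Filter Topology

namespace Pool.GL.Helper5

theorem hom_deg {φ : MvPolynomial (Fin 2) ℂ} {k : ℕ} (h : φ.IsHomogeneous k) {d : Fin 2 →₀ ℕ}
    (hd : MvPolynomial.coeff d φ ≠ 0) : d 0 + d 1 = k := by
  have h1 : Finsupp.degree d = k := by
    by_contra hne
    exact hd (h.coeff_eq_zero hne)
  rw [← h1, Finsupp.degree_eq_sum, Fin.sum_univ_two]

theorem eval_hom {φ : MvPolynomial (Fin 2) ℂ} {k : ℕ} (h : φ.IsHomogeneous k) {z : ℂ} (hz : z ≠ 0)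
    (s : ℂ) : z ^ k * MvPolynomial.eval ![1 / z, s / z] φ = MvPolynomial.eval ![1, s] φ := by
  rw [MvPolynomial.eval_eq', MvPolynomial.eval_eq', Finset.mul_sum]
  refine Finset.sum_congr rfl ?_
  intro d hd
  rw [MvPolynomial.mem_support_iff] at hd
  have hk := hom_deg h hd
  rw [Fin.prod_univ_two, Fin.prod_univ_two]
  simp only [Matrix.cons_val_zero, Matrix.cons_val_one, one_pow, one_mul]
  rw [← hk, pow_add, div_pow, div_pow, one_pow]
  field_simp

theorem eval_aeval (φ : MvPolynomial (Fin 2) ℂ) (s : ℂ) :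
    Polynomial.eval s (MvPolynomial.aeval ![(1 : Polynomial ℂ), Polynomial.X] φ) =
      MvPolynomial.eval ![1, s] φ := by
  induction φ using MvPolynomial.induction_on with
  | C a => simp
  | add p q hp hq => simp only [map_add, Polynomial.eval_add, hp, hq]
  | mul_X p i hp =>
    simp only [map_mul, Polynomial.eval_mul, hp, MvPolynomial.aeval_X, MvPolynomial.eval_X]
    congr 1
    fin_cases i <;> simp

theorem sum_hom {φ : MvPolynomial (Fin 2) ℂ} {d : ℕ} (h : φ.totalDegree ≤ d) :
    ∑ i ∈ Finset.range (d + 1), MvPolynomial.homogeneousComponent i φ = φ := by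
  conv_rhs => rw [← MvPolynomial.sum_homogeneousComponent φ]
  symm
  refine Finset.sum_subset (Finset.range_mono (by omega)) ?_
  intro i _ hi
  rw [Finset.mem_range, not_lt] at hi
  exact MvPolynomial.homogeneousComponent_eq_zero _ _ (by omega)

theorem eval_top {φ : MvPolynomial (Fin 2) ℂ} {d : ℕ} (h : φ.totalDegree ≤ d) {z : ℂ}
    (hz : z ≠ 0) (s : ℂ) : z ^ d * MvPolynomial.eval ![1 / z, s / z] φ =
      ∑ m ∈ Finset.range (d + 1), z ^ m *
        MvPolynomial.eval ![1, s] (MvPolynomial.homogeneousComponent (d - m) φ) := by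
  conv_lhs => rw [← sum_hom h]
  rw [map_sum, Finset.mul_sum, ← Finset.sum_range_reflect]
  refine Finset.sum_congr rfl ?_
  intro m hm
  rw [Finset.mem_range] at hm
  have h1 : d + 1 - 1 - m = d - m := by omega
  rw [h1]
  have h2 : z ^ d = z ^ m * z ^ (d - m) := by
    rw [← pow_add]; congr 1; omega
  rw [h2, mul_assoc, eval_hom (MvPolynomial.homogeneousComponent_isHomogeneous (d - m) φ) hz s]

theorem CHART : S_CHART := by
  intro F hP hQ s z hz
  have h1 : (F.W (aff s z)).1 = MvPolynomial.eval ![1 / z, s / z] F.P := rfl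
  have h2 : (F.W (aff s z)).2 = MvPolynomial.eval ![1 / z, s / z] F.Q := rfl
  have hA : F.inf.A s z = - (z ^ F.d * MvPolynomial.eval ![1 / z, s / z] F.P) := by
    rw [eval_top hP hz, ← Finset.sum_neg_distrib]
    unfold Inf.A
    refine Finset.sum_congr rfl ?_
    intro m _
    simp only [Fld.inf, Polynomial.eval_neg, eval_aeval]
    ring
  have hB : F.inf.B s z = z ^ F.d * MvPolynomial.eval ![1 / z, s / z] F.Q -
      s * (z ^ F.d * MvPolynomial.eval ![1 / z, s / z] F.P) := by
    rw [eval_top hP hz, eval_top hQ hz, Finset.mul_sum, ← Finset.sum_sub_distrib]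
    unfold Inf.B
    refine Finset.sum_congr rfl ?_
    intro m _
    simp only [Fld.inf, Polynomial.eval_sub, Polynomial.eval_mul, Polynomial.eval_X, eval_aeval]
    ring
  rw [h1, h2, hA, hB]
  constructor <;> ring

theorem natDegree_hom (φ : MvPolynomial (Fin 2) ℂ) (k : ℕ) :
    (MvPolynomial.aeval ![(1 : Polynomial ℂ), Polynomial.X]
      (MvPolynomial.homogeneousComponent k φ)).natDegree ≤ k := by
  have := MvPolynomial.aeval_natDegree_le (MvPolynomial.homogeneousComponent k φ)
    (MvPolynomial.IsHomogeneous.totalDegree_le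
      (MvPolynomial.homogeneousComponent_isHomogeneous k φ))
    ![(1 : Polynomial ℂ), Polynomial.X] (n := 1) (by
      intro i
      fin_cases i
      · simp
      · simp)
  simpa using this

theorem GINF : S_GINF := by
  intro F hF
  refine ⟨hF.hd, ?_, ?_, hF.lead, ?_, hF.hypInf⟩
  · intro m _
    simp only [Fld.inf, Polynomial.natDegree_neg]
    exact natDegree_hom _ _
  · intro m hm
    simp only [Fld.inf] at hm ⊢
    refine (Polynomial.natDegree_sub_le _ _).trans (max_le ?_ ?_)
    · exact (natDegree_hom _ _).trans (by omega)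
    · refine (Polynomial.natDegree_mul_le).trans ?_
      have := natDegree_hom F.P (F.d - m)
      rw [Polynomial.natDegree_X]
      omega
  · simp only [Fld.inf, Nat.sub_zero, Polynomial.coeff_neg, Polynomial.coeff_sub,
      Polynomial.coeff_X_mul]
    rw [Polynomial.coeff_eq_zero_of_natDegree_lt
      (lt_of_le_of_lt (natDegree_hom F.Q F.d) (Nat.lt_succ_self _)), zero_sub]

end Pool.GL.Helper5
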