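import Pool.Agent.Helper99.GL.FSpec

/-!
Swarm `GL`, part F16d: the system of linear ODE's has polynomial solutions.
-/

set_option autoImplicit false

open Metric Set Filter Topology

namespace Pool.GL.Helper5

/-- the degree of `p` is at most `N` (`N` may be negative, then `p = 0`) -/
def Deg (p : Polynomial ℂ) (N : ℤ) : Prop := ∀ n : ℕ, N < n → p.coeff n = 0

theorem Deg.mul {p q : Polynomial ℂ} {N M : ℤ} (hp : Deg p N) (hq : Deg q M) :
    Deg (p * q) (N + M) := by
  intro n hn
  rw [Polynomial.coeff_mul]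
  refine Finset.sum_eq_zero ?_
  rintro ⟨i, j⟩ hij
  rw [Finset.HasAntidiagonal.mem_antidiagonal] at hij
  simp only at hij ⊢
  by_cases h : N < i
  · rw [hp i h, zero_mul]
  · have : M < j := by
      push Not at h
      have : (n : ℤ) = i + j := by exact_mod_cast hij.symm
      linarith
    rw [hq j this, mul_zero]

theorem Deg.mono {p : Polynomial ℂ} {N M : ℤ} (hp : Deg p N) (h : N ≤ M) : Deg p M :=
  fun n hn => hp n (lt_of_le_of_lt h hn)

theorem Deg.deriv {p : Polynomial ℂ} {N : ℤ} (hp : Deg p N) :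
    Deg (Polynomial.derivative p) (N - 1) := by
  intro n hn
  rw [Polynomial.coeff_derivative, hp (n + 1) (by push_cast; linarith), zero_mul]

theorem Deg.add {p q : Polynomial ℂ} {N : ℤ} (hp : Deg p N) (hq : Deg q N) : Deg (p + q) N := by
  intro n hn
  rw [Polynomial.coeff_add, hp n hn, hq n hn, add_zero]

theorem Deg.sub {p q : Polynomial ℂ} {N : ℤ} (hp : Deg p N) (hq : Deg q N) : Deg (p - q) N := by
  intro n hn
  rw [Polynomial.coeff_sub, hp n hn, hq n hn, sub_zero]

theorem Deg.neg {p : Polynomial ℂ} {N : ℤ} (hp : Deg p N) : Deg (-p) N := by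
  intro n hn
  rw [Polynomial.coeff_neg, hp n hn, neg_zero]

theorem Deg.C_mul {p : Polynomial ℂ} {N : ℤ} (c : ℂ) (hp : Deg p N) :
    Deg (Polynomial.C c * p) N := by
  intro n hn
  rw [Polynomial.coeff_C_mul, hp n hn, mul_zero]

theorem Deg.sum {ι : Type} (s : Finset ι) {f : ι → Polynomial ℂ} {N : ℤ}
    (h : ∀ i ∈ s, Deg (f i) N) : Deg (∑ i ∈ s, f i) N := by
  intro n hn
  rw [Polynomial.finsetSum_coeff]
  exact Finset.sum_eq_zero fun i hi => h i hi n hn

theorem deg_of_natDegree {p : Polynomial ℂ} {N : ℕ} (h : p.natDegree ≤ N) : Deg p N := by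
  intro n hn
  exact Polynomial.coeff_eq_zero_of_natDegree_lt (lt_of_le_of_lt h (by exact_mod_cast hn))

theorem natDegree_of_deg {p : Polynomial ℂ} {N : ℤ} (h : Deg p N) :
    p = 0 ∨ (p.natDegree : ℤ) ≤ N := by
  by_cases hp : p = 0
  · exact Or.inl hp
  · refine Or.inr ?_
    by_contra hN
    push Not at hN
    exact hp (Polynomial.leadingCoeff_eq_zero.mp (h _ hN))

theorem isOpen_Om (I : Inf) : IsOpen I.Om :=
  isOpen_ne_fun (Polynomial.continuous _) continuous_const

theorem b0_ne_zero {I : Inf} (hI : I.Good) : I.b 0 ≠ 0 := by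
  intro h
  apply hI.lead
  rw [h, Polynomial.coeff_zero]

theorem infinite_Om {I : Inf} (hI : I.Good) : I.Om.Infinite := by
  have h : (I.Om)ᶜ.Finite := by
    refine Set.Finite.subset (I.b 0).roots.toFinset.finite_toSet ?_
    intro s hs
    simp only [Inf.Om, mem_compl_iff, mem_ofPred_eq, not_not] at hs
    simp only [Finset.mem_coe, Multiset.mem_toFinset]
    rw [Polynomial.mem_roots (b0_ne_zero hI)]
    exact hs
  intro h'
  have := h'.union h
  rw [union_compl_self] at this
  exact Set.infinite_univ this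

theorem deriv_eq_of_eqOn {I : Inf} {φ : ℂ → ℂ} {q : Polynomial ℂ}
    (h : ∀ s ∈ I.Om, φ s = q.eval s) {a : ℂ} (ha : a ∈ I.Om) :
    deriv φ a = (Polynomial.derivative q).eval a := by
  have h1 : φ =ᶠ[𝓝 a] fun s => q.eval s :=
    Filter.eventually_of_mem ((isOpen_Om I).mem_nhds ha) h
  rw [h1.deriv_eq, Polynomial.deriv]

/-- the term with index `m` in the equation with index `k` -/
noncomputable def term (I : Inf) (p : ℕ → Polynomial ℂ) (k m : ℕ) : Polynomial ℂ :=
  I.b m * Polynomial.derivative (p (k - m))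
        + Polynomial.C ((k : ℂ) - 2 * m) * I.a m * p (k - m)
        - Polynomial.derivative (I.b m) * p (k - m)

theorem term_deg {I : Inf} (hI : I.Good) (p : ℕ → Polynomial ℂ) (k m : ℕ) (hm : m ≤ I.d)
    (hmk : m ≤ k) (hp : Deg (p (k - m)) ((I.d : ℤ) + 1 - ((k - m : ℕ) : ℤ))) :
    Deg (term I p k m) (2 * I.d + 1 - k) := by
  have ha : Deg (I.a m) ((I.d : ℤ) - m) := by
    have := deg_of_natDegree (hI.dega m hm)
    refine this.mono ?_
    push_cast [Nat.cast_sub hm]
    linarith
  have hb : Deg (I.b m) ((I.d : ℤ) + 1 - m) := by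
    have := deg_of_natDegree (hI.degb m hm)
    refine this.mono ?_
    rw [Nat.cast_sub (by omega)]
    push_cast
    linarith
  rw [Nat.cast_sub hmk] at hp
  unfold term
  refine Deg.sub (Deg.add ?_ ?_) ?_
  · refine (hb.mul hp.deriv).mono ?_
    linarith
  · rw [mul_assoc]
    refine Deg.C_mul _ ((ha.mul hp).mono ?_)
    linarith
  · refine (hb.deriv.mul hp).mono ?_
    linarith

theorem term_eval {I : Inf} {φ : ℕ → ℂ → ℂ} {p : ℕ → Polynomial ℂ} {k m : ℕ} {a : ℂ}
    (ha : a ∈ I.Om) (h : ∀ s ∈ I.Om, φ (k - m) s = (p (k - m)).eval s) :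
    (term I p k m).eval a = ((I.b m).eval a * deriv (φ (k - m)) a
        + ((k : ℂ) - 2 * m) * (I.a m).eval a * φ (k - m) a
        - (Polynomial.derivative (I.b m)).eval a * φ (k - m) a) := by
  rw [deriv_eq_of_eqOn h ha, h a ha]
  simp only [term, Polynomial.eval_sub, Polynomial.eval_add, Polynomial.eval_mul,
    Polynomial.eval_C]

theorem exists_poly (hO : S_ODEC) {I : Inf} (hI : I.Good) {φ : ℕ → ℂ → ℂ} (hφ : I.PhiSys φ)
    (k : ℕ) : ∃ q : Polynomial ℂ, (∀ s ∈ I.Om, φ k s = q.eval s) ∧
      Deg q ((I.d : ℤ) + 1 - k) := by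
  obtain ⟨hdiff, h0, hsys⟩ := hφ
  induction k using Nat.strong_induction_on with
  | _ k ih =>
    rcases Nat.eq_zero_or_pos k with hk | hk
    · subst hk
      refine ⟨I.b 0, h0, ?_⟩
      have := deg_of_natDegree (hI.degb 0 (Nat.zero_le _))
      refine this.mono ?_
      push_cast
      simp
    · classical
      choose! q hq using ih
      set s : Finset ℕ := (Finset.range (I.d + 1)).filter (fun m => m ≤ k) with hs
      have h0s : 0 ∈ s := by simp [hs]
      set r : Polynomial ℂ := - ∑ m ∈ s.erase 0, term I q k m with hr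
      have hrdeg : Deg r (2 * I.d + 1 - k) := by
        refine Deg.neg (Deg.sum _ ?_)
        intro m hm
        rw [Finset.mem_erase, hs, Finset.mem_filter, Finset.mem_range] at hm
        refine term_deg hI q k m (by omega) (by omega) ?_
        exact (hq (k - m) (by omega)).2
      have hr' : r = 0 ∨ r.natDegree + k ≤ 2 * I.d + 1 := by
        rcases natDegree_of_deg hrdeg with h | h
        · exact Or.inl h
        · right
          omega
      have heq : ∀ a ∈ I.Om, (I.b 0).eval a * deriv (φ k) a + ((k : ℂ) * (I.a 0).eval a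
          - (Polynomial.derivative (I.b 0)).eval a) * φ k a = r.eval a := by
        intro a ha
        have h1 := hsys k a ha
        rw [← hs, ← Finset.add_sum_erase _ _ h0s] at h1
        have h2 : r.eval a = - ∑ m ∈ s.erase 0, ((I.b m).eval a * deriv (φ (k - m)) a
            + ((k : ℂ) - 2 * m) * (I.a m).eval a * φ (k - m) a
            - (Polynomial.derivative (I.b m)).eval a * φ (k - m) a) := by
          rw [hr, Polynomial.eval_neg, Polynomial.eval_finsetSum]
          congr 1
          refine Finset.sum_congr rfl ?_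
          intro m hm
          rw [Finset.mem_erase, hs, Finset.mem_filter, Finset.mem_range] at hm
          exact term_eval ha (hq (k - m) (by omega)).1
        rw [h2, eq_neg_iff_add_eq_zero, ← h1]
        simp only [Nat.sub_zero, Nat.cast_zero, mul_zero, sub_zero]
        ring
      obtain ⟨p, hp1, hp2, hp3⟩ := hO I hI k hk r (φ k) hr' (hdiff k) heq
      refine ⟨p, hp1, ?_⟩
      by_cases hkd : k ≤ I.d + 1
      · have := deg_of_natDegree (hp2 hkd)
        refine this.mono ?_
        rw [Nat.cast_sub hkd]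
        push_cast
        linarith
      · rw [hp3 (by omega)]
        intro n _
        simp

theorem ODEK (hO : S_ODEC) : S_ODEK := by
  intro I hI φ hφ
  choose p hp using exists_poly hO hI hφ
  obtain ⟨hdiff, h0, hsys⟩ := hφ
  refine ⟨p, ?_, ?_, ?_, ?_⟩
  · refine Polynomial.eq_of_infinite_eval_eq _ _ ((infinite_Om hI).mono ?_)
    intro a ha
    simp only [mem_ofPred_eq]
    rw [← (hp 0).1 a ha, h0 a ha]
  · intro k hk
    rcases natDegree_of_deg (hp k).2 with h | h
    · rw [h]; simp
    · omega
  · intro k hk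
    rcases natDegree_of_deg (hp k).2 with h | h
    · exact h
    · exfalso
      omega
  · intro k
    refine Polynomial.eq_zero_of_infinite_isRoot _ ((infinite_Om hI).mono ?_)
    intro a ha
    simp only [mem_ofPred_eq, Polynomial.IsRoot.def]
    rw [Polynomial.eval_finsetSum, ← hsys k a ha]
    refine Finset.sum_congr rfl ?_
    intro m hm
    exact term_eval ha (hp (k - m)).1

end Pool.GL.Helper5
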